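import Pool.Agent.Y570.OB.Main

/-!
# All types of vertex orders between Type A and Type B are hard to recognise

The starting files `TypeANPComplete` and `TypeBNPComplete` show that it is NP-complete to decide
whether a graph admits a Type-A order (a Type-B order). Here both questions are answered at once and
for all types of orders in between; even the gap between the two notions is of no help for
algorithms: if `P ≠ NP` then no polynomial-time algorithm separates the graphs with a Type-A order
from the graphs without a Type-B order, and none finds a Type-B order of every graph that has a Type-A
order.
-/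

set_option autoImplicit false

namespace Pool.Agent.Results.MP_e5cbc1_lc.AllBetween

open Pool.Agent.NPC Pool.Agent.NPC.R671 Pool.Agent.H671R2.Ord Pool.Agent.Y570.OB

/-- (1) For every type `X` of vertex orders such that Type-A orders are of type `X` and orders of type
`X` are Type-B orders: it is NP-hard to decide whether a graph admits an order of type `X`, and a
polynomial-time algorithm which decides this exists only if `P = NP`. (2) If moreover the orders of
type `X` can be checked in polynomial time then the problem is in `NP`, and a polynomial-time algorithm
exists if and only if `P = NP`. (3) Examples: Type-B orders in which `d⁻` is odd or zero for all but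
at most `k` vertices, for every `k`. (4) There is a polynomial-time algorithm which separates the
graphs with a Type-A order from the graphs without a Type-B order if and only if `P = NP`. (5) There
is a polynomial-time algorithm which finds a Type-B order of every graph with a Type-A order if and
only if `P = NP`. (6), (7) The answers to Q1 and Q2: for Type A, and for Type B, the problem is
NP-complete, and there is a polynomial-time algorithm if and only if `P = NP`. -/
theorem result :
    (∀ X : VertexOrderType, IsBetween X → NPHardP (Admits X) ∧ (Recognisable X → PEqNP)) ∧
    (∀ X : VertexOrderType, IsBetween X → Checkable X →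
      InNPP (Admits X) ∧ (Recognisable X ↔ PEqNP)) ∧
    (∀ k : ℕ, IsBetween (AtMost k) ∧ NPHardP (Admits (AtMost k))) ∧
    (Separable ↔ PEqNP) ∧ (WeaklyFindable ↔ PEqNP) ∧
    (InNPP AdmitsA ∧ NPHardP AdmitsA ∧ (RecognisableA ↔ PEqNP)) ∧
    (InNPP AdmitsB ∧ NPHardP AdmitsB ∧ (RecognisableB ↔ PEqNP)) :=
  ⟨fun _ hX => ⟨hard_between hX, rec_hard hX⟩,
    fun _ hX hc => ⟨mem_between hX hc, rec_iff hX hc⟩,
    fun k => ⟨between_atMost k, hard_between (between_atMost k)⟩, sep_iff, find_iff,
    ⟨inNPP_A, hardI_A.toNPHardP, recognisableA_iff⟩,
    ⟨inNPP_B, hardI_B.toNPHardP, recognisableB_iff⟩⟩

end Pool.Agent.Results.MP_e5cbc1_lc.AllBetween
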